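import Mathlib
import Pool.Agent.Lib.MP_64d474_lc.S3.Defs69

set_option autoImplicit false

/-!
# Functions of `k` products of polynomials of low degree: the statements of the rows

`Ω` is the field of constants, `K ⊇ Ω` an algebraically closed field with a valuation ring
`V ⊇ Ω`.  `VInd V y`: the values of `y` are rationally independent.
-/

namespace Pool.Agent.Lib.MP_64d474_lc.KA

open MvPolynomial

universe u

/-- the values of the `y i` are rationally independent -/
def VInd {K : Type u} [Field K] (V : ValuationSubring K) {n : ℕ} (y : Fin n → K) : Prop :=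
  (∀ i, y i ≠ 0) ∧ ∀ e : Fin n → ℤ, V.valuation (∏ i, y i ^ e i) = 1 → e = 0

/-- bound of the relation found by counting -/
def cnt (r Δ : ℕ) : ℕ := (r + 1) * ((r + 1) * Δ + 1) ^ r

/-- total degree in the `r` variables at most `d`, coefficients of total degree at most `δ` -/
def Bd {F : Type u} [Field F] {m r : ℕ} (d δ : ℕ)
    (P : MvPolynomial (Fin r) (MvPolynomial (Fin m) F)) : Prop :=
  P.totalDegree ≤ d ∧ ∀ c, (P.coeff c).totalDegree ≤ δ

/-- `P ↦ P (x + ∑ s_l e_{j l})` in `F[x][s]` -/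
noncomputable def sub (F : Type u) [Field F] {m r : ℕ} (j : Fin r → Fin m) :
    MvPolynomial (Fin m) F →+* MvPolynomial (Fin r) (MvPolynomial (Fin m) F) :=
  eval₂Hom (C.comp C) fun k => C (X k) + ∑ l, if j l = k then X l else 0

/-- number of points -/
def nPts (r d : ℕ) : ℕ := cnt r d
/-- degree of `h` (and of the factors) -/
def dH (r d : ℕ) : ℕ := nPts r d ^ 2 * d + d
/-- degree of the relation -/
def dRel (r d : ℕ) : ℕ := cnt r (dH r d)
/-- the degree up to which `g` has to be injective -/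
def dAll (r d : ℕ) : ℕ := (dRel r d + 1) ^ (r + 1) * (dRel r d * dH r d)

/-- Row LA: span relations of bounded degree are transported from `g` to `f`. -/
def StLA : Prop :=
  ∀ (F : Type u) [Field F] (Ω : Type u) [Field Ω] (m D δ : ℕ)
    (f g : MvPolynomial (Fin m) F →+* Ω),
    Function.Injective f → (∀ p, p ≠ 0 → p.totalDegree ≤ D → g p ≠ 0) →
    ∀ (κ : Type) [Fintype κ] (I : Type) (W : κ → I → MvPolynomial (Fin m) F),
      (∀ c i, (W c i).totalDegree ≤ δ) → Fintype.card κ * δ ≤ D →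
      ∀ (S : Set κ) (c₀ : κ),
        (fun i => g (W c₀ i)) ∈ Submodule.span Ω ((fun c i => g (W c i)) '' S) →
        (fun i => f (W c₀ i)) ∈ Submodule.span Ω ((fun c i => f (W c i)) '' S)

/-- Row COUNT: `r + 1` polynomials in `r` variables satisfy a relation of bounded degree. -/
def StCount : Prop :=
  ∀ (k : Type u) [Field k] (r Δ : ℕ) (P : Fin (r + 1) → MvPolynomial (Fin r) k),
    (∀ i, (P i).totalDegree ≤ Δ) →
    ∃ Φ : MvPolynomial (Fin (r + 1)) k, Φ ≠ 0 ∧ Φ.totalDegree ≤ cnt r Δ ∧ aeval P Φ = 0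

/-- Row ROOT: the irreducible relation between `Q` and `h`, and its roots. -/
def StRoot : Prop :=
  ∀ (k : Type u) [Field k] (K : Type u) [Field K] [IsAlgClosed K] [Algebra k K] (r Δ : ℕ)
    (Q : Fin r → MvPolynomial (Fin r) k) (h : MvPolynomial (Fin r) k) (y : Fin r → K),
    1 ≤ Δ → (∀ i, (Q i).totalDegree ≤ Δ) → h.totalDegree ≤ Δ → AlgebraicIndependent k Q →
    AlgebraicIndependent k y →
    ∃ A : MvPolynomial (Fin (r + 1)) k, A ≠ 0 ∧ A.totalDegree ≤ cnt r Δ ∧
      aeval (Fin.cons h Q : Fin (r + 1) → MvPolynomial (Fin r) k) A = 0 ∧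
      ∀ ρ : K, aeval (Fin.cons ρ y : Fin (r + 1) → K) A = 0 →
        ∃ s' : Fin r → K, (∀ i, aeval s' (Q i) = y i) ∧ aeval s' h = ρ

/-- Row FIN: the number of points over `y`. -/
def StFin : Prop :=
  ∀ (k : Type u) [Field k] [Infinite k] (K : Type u) [Field K] [Algebra k K] (r Δ : ℕ)
    (Q : Fin r → MvPolynomial (Fin r) k) (y : Fin r → K),
    1 ≤ Δ → (∀ i, (Q i).totalDegree ≤ Δ) → AlgebraicIndependent k y →
    ∀ S : Finset (Fin r → K), (∀ s' ∈ S, ∀ i, aeval s' (Q i) = y i) → S.card ≤ cnt r Δ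

/-- Row QIND: `r` dependent polynomials in `r` variables satisfy a relation of bounded degree. -/
def StQInd : Prop :=
  ∀ (k : Type u) [Field k] (r Δ : ℕ) (Q : Fin r → MvPolynomial (Fin r) k),
    1 ≤ Δ → (∀ i, (Q i).totalDegree ≤ Δ) → ¬ AlgebraicIndependent k Q →
    ∃ Φ : MvPolynomial (Fin r) k, Φ ≠ 0 ∧ Φ.totalDegree ≤ cnt r Δ ∧ aeval Q Φ = 0

/-- Row GEN: a point over an independent `y` is generic. -/
def StGen : Prop :=
  ∀ (k : Type u) [Field k] (K : Type u) [Field K] [Algebra k K] (r : ℕ)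
    (Q : Fin r → MvPolynomial (Fin r) k) (y s : Fin r → K),
    AlgebraicIndependent k y → (∀ i, aeval s (Q i) = y i) → AlgebraicIndependent k s

/-- Row DOM: a polynomial without roots of value `v θ` has a dominating term at `v θ`. -/
def StDom : Prop :=
  ∀ (K : Type u) [Field K] [IsAlgClosed K] (V : ValuationSubring K) (p : Polynomial K) (θ : K),
    p ≠ 0 → θ ≠ 0 → (∀ ρ, p.IsRoot ρ → V.valuation ρ ≠ V.valuation θ) →
    ∃ k₀, p.coeff k₀ ≠ 0 ∧ ∀ k, k ≠ k₀ →
      V.valuation (p.coeff k * θ ^ k) < V.valuation (p.coeff k₀ * θ ^ k₀)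

/-- Row IND: values rationally independent. -/
def StInd : Prop :=
  ∀ (k : Type u) [Field k] (K : Type u) [Field K] [Algebra k K] (V : ValuationSubring K)
    (_ : ∀ c : k, algebraMap k K c ∈ V) (n : ℕ) (y : Fin n → K), VInd V y →
    AlgebraicIndependent k y ∧
    ∀ c : MvPolynomial (Fin n) k, c ≠ 0 → ∃ α ∈ c.support,
      V.valuation (aeval y c) = V.valuation (∏ i, y i ^ α i) ∧
      ∀ β ∈ c.support, β ≠ α → V.valuation (∏ i, y i ^ β i) < V.valuation (∏ i, y i ^ α i)

/-- Row MON: one monomial of `A` dominates at `(θ, y)`. -/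
def StMon : Prop :=
  ∀ (k : Type u) [Field k] (K : Type u) [Field K] [IsAlgClosed K] [Algebra k K]
    (V : ValuationSubring K) (_ : ∀ c : k, algebraMap k K c ∈ V) (r : ℕ) (y : Fin r → K) (θ : K)
    (A : MvPolynomial (Fin (r + 1)) k), VInd V y → θ ≠ 0 → A ≠ 0 →
    (∀ ρ : K, aeval (Fin.cons ρ y : Fin (r + 1) → K) A = 0 → V.valuation ρ ≠ V.valuation θ) →
    ∃ β₀ ∈ A.support, ∀ β ∈ A.support, β ≠ β₀ →
      V.valuation (∏ i, (Fin.cons θ y : Fin (r + 1) → K) i ^ β i) <
        V.valuation (∏ i, (Fin.cons θ y : Fin (r + 1) → K) i ^ β₀ i)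

/-- Row SEP: one product of few factors separates all points. -/
def StSep : Prop :=
  ∀ (Γ : Type u) [LinearOrderedCommGroupWithZero Γ] (A P : Type u) [Fintype P] (a : A → Γ)
    (b : P → A → Γ), (∀ x, a x ≠ 0) → (∀ p x, b p x ≠ 0) → (∀ p, ∃ x, b p x ≠ a x) →
    ∃ M : Multiset A, M.card ≤ Fintype.card P ^ 2 ∧
      ∀ p, (M.map (b p)).prod ≠ (M.map a).prod

/-- Row CHEV: a valuation ring with independent values at independent elements. -/
def StChev : Prop :=
  ∀ (k : Type u) [Field k] (K : Type u) [Field K] [Algebra k K] (n : ℕ) (t : Fin n → K),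
    AlgebraicIndependent k t →
    ∃ V : ValuationSubring K, (∀ c : k, algebraMap k K c ∈ V) ∧ VInd V t

/-- Row SEL: `n` of the factors of `n` products with independent values have independent
values. -/
def StSel : Prop :=
  ∀ (K : Type u) [Field K] (V : ValuationSubring K) (A : Type u) (q : A → K) (n : ℕ)
    (M : Fin n → Multiset A), (∀ a, q a ≠ 0) → VInd V (fun i => ((M i).map q).prod) →
    ∃ a : Fin n → A, VInd V (fun i => q (a i))

/-- Row SLICE: independent polynomials stay independent on a coordinate slice. -/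
def StSlice : Prop :=
  ∀ (F : Type u) [Field F] [CharZero F] (Ω : Type u) [Field Ω] (m r : ℕ)
    (f : MvPolynomial (Fin m) F →+* Ω) (T : Fin r → MvPolynomial (Fin m) F),
    Function.Injective f → AlgebraicIndependent F T →
    ∃ j : Fin r → Fin m, Function.Injective j ∧
      AlgebraicIndependent Ω fun i => map f (sub F j (T i))

/-- Row BD: the slice of a polynomial of degree at most `d`. -/
def StBd : Prop :=
  ∀ (F : Type u) [Field F] (m r d : ℕ) (j : Fin r → Fin m) (P : MvPolynomial (Fin m) F),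
    P.totalDegree ≤ d → Bd d d (sub F j P) ∧ (P ≠ 0 → sub F j P ≠ 0)

/-- Row TL: the transfer. -/
def StTransfer : Prop :=
  ∀ (F : Type u) [Field F] (Ω : Type u) [Field Ω] [Infinite Ω] (K : Type u) [Field K]
    [IsAlgClosed K] [Algebra Ω K] (V : ValuationSubring K)
    (_ : ∀ c : Ω, algebraMap Ω K c ∈ V) (m r d : ℕ)
    (f g : MvPolynomial (Fin m) F →+* Ω) (A : Type u)
    (q : A → MvPolynomial (Fin r) (MvPolynomial (Fin m) F)) (s : Fin r → K) (a : Fin r → A),
    1 ≤ d → Function.Injective f → (∀ p, p ≠ 0 → p.totalDegree ≤ dAll r d → g p ≠ 0) →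
    (∀ b, q b ≠ 0 ∧ Bd d d (q b)) → VInd V (fun i => aeval s (map f (q (a i)))) →
    ∃ s' : Fin r → K, ∀ b,
      V.valuation (aeval s' (map g (q b))) = V.valuation (aeval s (map f (q b)))

/-- Row AT: independence of products is transported from `f` to `g`. -/
def StAT : Prop :=
  ∀ (F : Type u) [Field F] (Ω : Type u) [Field Ω] [Infinite Ω] (m r d : ℕ)
    (f g : MvPolynomial (Fin m) F →+* Ω)
    (T : Fin r → Multiset (MvPolynomial (Fin r) (MvPolynomial (Fin m) F))),
    1 ≤ d → Function.Injective f → (∀ p, p ≠ 0 → p.totalDegree ≤ dAll r d → g p ≠ 0) →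
    (∀ i, ∀ P ∈ T i, P ≠ 0 ∧ Bd d d P) →
    AlgebraicIndependent Ω (fun i => map f (T i).prod) →
    AlgebraicIndependent Ω (fun i => map g (T i).prod)

/-- number of seeds for `k` products of polynomials of degree at most `d` -/
def seeds (k d : ℕ) : ℕ := (Finset.range (k + 1)).sup (fun r => dAll r (d + 1)) + k

/-- Row FINAL: the generator is injective on `F[T_1, ..., T_k]`. -/
def StFinal : Prop :=
  ∀ (F : Type u) [Field F] [CharZero F] (k d m : ℕ)
    (T : Fin k → Multiset (MvPolynomial (Fin m) F)),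
    (∀ i, ∀ P ∈ T i, P.totalDegree ≤ d) → ∀ C : MvPolynomial (Fin k) F,
      S3.gen F m (seeds k d) (aeval (fun i => (T i).prod) C) = 0 →
      aeval (fun i => (T i).prod) C = 0

end Pool.Agent.Lib.MP_64d474_lc.KA
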