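import Mathlib
import Pool.Agent.Lib.MP_64d474_lc.KA.Defs9

set_option autoImplicit false

namespace Pool.Agent.Lib.MP_64d474_lc.KA

open MvPolynomial

universe u

section CB

variable {F : Type*} [Field F] {m r : ℕ}

/-- all coefficients have degree at most `δ` -/
def CB (δ : ℕ) (p : MvPolynomial (Fin r) (MvPolynomial (Fin m) F)) : Prop :=
  ∀ c, (p.coeff c).totalDegree ≤ δ

theorem CB.mono {δ δ' : ℕ} (h : δ ≤ δ') {p : MvPolynomial (Fin r) (MvPolynomial (Fin m) F)}
    (hp : CB δ p) : CB δ' p := fun c => (hp c).trans h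

theorem CB.one : CB 0 (1 : MvPolynomial (Fin r) (MvPolynomial (Fin m) F)) := by
  intro c
  rw [coeff_one]
  split_ifs <;> simp

theorem CB.mul {δ₁ δ₂ : ℕ} {p q : MvPolynomial (Fin r) (MvPolynomial (Fin m) F)}
    (hp : CB δ₁ p) (hq : CB δ₂ q) : CB (δ₁ + δ₂) (p * q) := by
  intro c
  rw [coeff_mul]
  refine (totalDegree_finsetSum _ _).trans (Finset.sup_le fun x _ => ?_)
  exact (totalDegree_mul _ _).trans (add_le_add (hp _) (hq _))

theorem CB.pow {δ : ℕ} {p : MvPolynomial (Fin r) (MvPolynomial (Fin m) F)} (hp : CB δ p) :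
    ∀ n : ℕ, CB (n * δ) (p ^ n)
  | 0 => by simpa using CB.one
  | n + 1 => by
    rw [pow_succ, Nat.succ_mul]
    exact (CB.pow hp n).mul hp

theorem CB.prod {ι : Type*} (s : Finset ι) {δ : ι → ℕ}
    {p : ι → MvPolynomial (Fin r) (MvPolynomial (Fin m) F)} (hp : ∀ i ∈ s, CB (δ i) (p i)) :
    CB (∑ i ∈ s, δ i) (∏ i ∈ s, p i) := by
  classical
  induction s using Finset.induction_on with
  | empty => simpa using CB.one
  | insert a s ha ih =>
    rw [Finset.sum_insert ha, Finset.prod_insert ha]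
    exact (hp a (Finset.mem_insert_self a s)).mul
      (ih fun i hi => hp i (Finset.mem_insert_of_mem hi))

theorem CB.multiset_prod {δ : ℕ}
    (M : Multiset (MvPolynomial (Fin r) (MvPolynomial (Fin m) F))) (hp : ∀ p ∈ M, CB δ p) :
    CB (M.card * δ) M.prod := by
  induction M using Multiset.induction_on with
  | empty => simpa using CB.one
  | cons a s ih =>
    rw [Multiset.card_cons, Multiset.prod_cons, Nat.succ_mul, add_comm]
    exact (hp a (Multiset.mem_cons_self a s)).mul
      (ih fun i hi => hp i (Multiset.mem_cons_of_mem hi))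

end CB

/-- the coefficient function, linear and injective -/
noncomputable def coefFun (Ω : Type*) [Field Ω] (r : ℕ) :
    MvPolynomial (Fin r) Ω →ₗ[Ω] ((Fin r →₀ ℕ) → Ω) where
  toFun p := fun i => p.coeff i
  map_add' p q := by funext i; simp
  map_smul' c p := by funext i; simp

theorem coefFun_injective (Ω : Type*) [Field Ω] (r : ℕ) : Function.Injective (coefFun Ω r) := by
  intro p q h
  ext i
  exact congrFun h i

theorem mem_span_of_coefFun {Ω : Type*} [Field Ω] {r : ℕ} {κ : Type*} (S : Set κ)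
    (w : κ → MvPolynomial (Fin r) Ω) (p : MvPolynomial (Fin r) Ω) :
    coefFun Ω r p ∈ Submodule.span Ω ((fun c => coefFun Ω r (w c)) '' S) ↔
      p ∈ Submodule.span Ω (w '' S) := by
  have h1 : (fun c => coefFun Ω r (w c)) '' S = coefFun Ω r '' (w '' S) := by
    rw [Set.image_image]
  rw [h1, ← Submodule.map_span, Submodule.mem_map]
  constructor
  · rintro ⟨q, hq, hqp⟩
    rwa [← coefFun_injective Ω r hqp]
  · intro h
    exact ⟨p, h, rfl⟩

theorem card_support_le {Ω : Type*} [Field Ω] {n E : ℕ} (A : MvPolynomial (Fin n) Ω)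
    (hE : A.totalDegree ≤ E) : A.support.card ≤ (E + 1) ^ n := by
  classical
  have h1 : ∀ β ∈ A.support, ∀ i, β i < E + 1 := by
    intro β hβ i
    have h2 : β i ≤ β.sum fun _ e => e := by
      by_cases hi : i ∈ β.support
      · exact Finset.single_le_sum (f := fun i => β i) (fun _ _ => Nat.zero_le _) hi
      · rw [Finsupp.notMem_support_iff.1 hi]; exact Nat.zero_le _
    exact Nat.lt_succ_of_le (h2.trans ((le_totalDegree hβ).trans hE))
  have h2 : A.support.card ≤ Fintype.card (Fin n → Fin (E + 1)) := by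
    rw [← Finset.card_univ, ← Finset.card_attach]
    refine Finset.card_le_card_of_injOn (fun β i => ⟨β.1 i, h1 β.1 β.2 i⟩)
      (fun _ _ => Finset.mem_univ _) ?_
    intro β _ γ _ h
    apply Subtype.ext
    ext i
    exact congrArg Fin.val (congrFun h i)
  simpa using h2

/-- A monomial of a relation through `g` is, through `f`, in the span of the other ones. -/
theorem rel_transfer (hLA : StLA.{u}) {F : Type u} [Field F] {Ω : Type u} [Field Ω] {m D : ℕ}
    {f g : MvPolynomial (Fin m) F →+* Ω} (hf : Function.Injective f)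
    (hg : ∀ p, p ≠ 0 → p.totalDegree ≤ D → g p ≠ 0) {r n E δ : ℕ}
    (P : Fin n → MvPolynomial (Fin r) (MvPolynomial (Fin m) F)) (hP : ∀ i, CB δ (P i))
    (A : MvPolynomial (Fin n) Ω) (hE : A.totalDegree ≤ E)
    (h0 : aeval (fun i => map g (P i)) A = 0) (β₀ : Fin n →₀ ℕ) (hβ₀ : β₀ ∈ A.support)
    (hD : (E + 1) ^ n * (E * δ) ≤ D) :
    (∏ i, map f (P i) ^ β₀ i) ∈ Submodule.span Ω
      ((fun β : Fin n →₀ ℕ => ∏ i, map f (P i) ^ β i) '' {β | β ∈ A.support ∧ β ≠ β₀}) := by
  classical
  have hsum : ∀ β ∈ A.support, ∑ i, β i ≤ E := by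
    intro β hβ
    have h1 : (β.sum fun _ e => e) = ∑ i, β i := Finsupp.sum_fintype _ _ (fun _ => rfl)
    rw [← h1]
    exact (le_totalDegree hβ).trans hE
  have key := hLA F Ω m D (E * δ) f g hf hg A.support (Fin r →₀ ℕ)
    (fun c i => (∏ l, P l ^ c.1 l).coeff i) (by
      intro c i
      have h1 : CB (∑ l, c.1 l * δ) (∏ l, P l ^ c.1 l) :=
        CB.prod Finset.univ fun l _ => (hP l).pow _
      refine (h1 i).trans ?_
      rw [← Finset.sum_mul]
      exact Nat.mul_le_mul_right _ (hsum c.1 c.2)) (by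
      rw [Fintype.card_coe]
      exact (Nat.mul_le_mul_right _ (card_support_le A hE)).trans hD)
    {c | c.1 ≠ β₀} ⟨β₀, hβ₀⟩
  have hgc : ∀ (φ : MvPolynomial (Fin m) F →+* Ω) (c : Fin n →₀ ℕ),
      (fun i => φ ((∏ l, P l ^ c l).coeff i)) = coefFun Ω r (∏ l, map φ (P l) ^ c l) := by
    intro φ c
    funext i
    change _ = (∏ l, map φ (P l) ^ c l).coeff i
    rw [← coeff_map, map_prod]
    simp only [map_pow]
  simp only [hgc] at key
  have h3 := (mem_span_of_coefFun {c : A.support | c.1 ≠ β₀}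
    (fun c : A.support => ∏ l, map f (P l) ^ c.1 l) (∏ l, map f (P l) ^ β₀ l)).1 (key ?_)
  · refine Submodule.span_mono ?_ h3
    rintro _ ⟨c, hc, rfl⟩
    exact ⟨c.1, ⟨c.2, hc⟩, rfl⟩
  · refine (mem_span_of_coefFun {c : A.support | c.1 ≠ β₀}
      (fun c : A.support => ∏ l, map g (P l) ^ c.1 l) (∏ l, map g (P l) ^ β₀ l)).2 ?_
    have h4 : ∑ β ∈ A.support, (A.coeff β) • ∏ l, map g (P l) ^ β l = 0 := by
      rw [← h0, aeval_def, eval₂_eq']
      refine Finset.sum_congr rfl fun β _ => ?_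
      rw [Algebra.smul_def]
    rw [← Finset.add_sum_erase _ _ hβ₀] at h4
    have h5 : (∏ l, map g (P l) ^ β₀ l) = -((A.coeff β₀)⁻¹ •
        ∑ β ∈ A.support.erase β₀, (A.coeff β) • ∏ l, map g (P l) ^ β l) := by
      have hne : A.coeff β₀ ≠ 0 := mem_support_iff.1 hβ₀
      have h6 := eq_neg_of_add_eq_zero_left h4
      rw [← smul_neg, ← h6, smul_smul, inv_mul_cancel₀ hne, one_smul]
    rw [h5]
    refine Submodule.neg_mem _ (Submodule.smul_mem _ _ (Submodule.sum_mem _ fun β hβ => ?_))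
    refine Submodule.smul_mem _ _ (Submodule.subset_span ?_)
    exact ⟨⟨β, Finset.mem_of_mem_erase hβ⟩, Finset.ne_of_mem_erase hβ, rfl⟩

theorem not_mem_span_of_lt {Ω K : Type*} [Field Ω] [Field K] [Algebra Ω K]
    (V : ValuationSubring K) (hΩ : ∀ c : Ω, algebraMap Ω K c ∈ V) (S : Set K) (x : K)
    (hx : x ≠ 0) (h : ∀ z ∈ S, V.valuation z < V.valuation x) : x ∉ Submodule.span Ω S := by
  have hvx : (0 : V.ValueGroup) < V.valuation x :=
    zero_lt_iff.2 ((Valuation.ne_zero_iff _).2 hx)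
  have key : ∀ z ∈ Submodule.span Ω S, V.valuation z < V.valuation x := by
    intro z hz
    induction hz using Submodule.span_induction with
    | mem z hz => exact h z hz
    | zero => rw [map_zero]; exact hvx
    | add a b _ _ ha hb => exact lt_of_le_of_lt (Valuation.map_add _ _ _) (max_lt ha hb)
    | smul c a _ ha =>
      rw [Algebra.smul_def, map_mul]
      refine lt_of_le_of_lt ?_ ha
      calc V.valuation (algebraMap Ω K c) * V.valuation a ≤ 1 * V.valuation a :=
            mul_le_mul_left ((V.valuation_le_one_iff _).2 (hΩ c)) _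
        _ = V.valuation a := one_mul _
  intro hmem
  exact lt_irrefl _ (key x hmem)

end Pool.Agent.Lib.MP_64d474_lc.KA
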