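import Mathlib
import Pool.Agent.Lib.MP_64d474_lc.KA.Rel9

set_option autoImplicit false

namespace Pool.Agent.Lib.MP_64d474_lc.KA

open MvPolynomial

universe u

theorem one_le_cnt (r Δ : ℕ) : 1 ≤ cnt r Δ := by
  unfold cnt
  exact Nat.succ_le_of_lt (Nat.mul_pos (Nat.succ_pos _) (Nat.pow_pos (Nat.succ_pos _)))

theorem cnt_mono (r : ℕ) {Δ Δ' : ℕ} (h : Δ ≤ Δ') : cnt r Δ ≤ cnt r Δ' := by
  unfold cnt
  gcongr

theorem d_le_dH (r d : ℕ) : d ≤ dH r d := by unfold dH; exact Nat.le_add_left _ _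

theorem dH_le_dAll (r d : ℕ) : dH r d ≤ dAll r d := by
  unfold dAll
  have h1 : 1 ≤ (dRel r d + 1) ^ (r + 1) := Nat.one_le_pow _ _ (Nat.succ_pos _)
  have h2 : 1 ≤ dRel r d := one_le_cnt _ _
  calc dH r d = 1 * (1 * dH r d) := by ring
    _ ≤ (dRel r d + 1) ^ (r + 1) * (dRel r d * dH r d) := by gcongr

theorem qind_bound (r d : ℕ) : (cnt r d + 1) ^ r * (cnt r d * d) ≤ dAll r d := by
  unfold dAll
  have h1 : cnt r d ≤ dRel r d := cnt_mono r (d_le_dH r d)
  have h3 : (cnt r d + 1) ^ r ≤ (dRel r d + 1) ^ (r + 1) :=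
    (Nat.pow_le_pow_left (Nat.succ_le_succ h1) r).trans
      (Nat.pow_le_pow_right (Nat.succ_pos _) (Nat.le_succ r))
  exact Nat.mul_le_mul h3 (Nat.mul_le_mul h1 (d_le_dH r d))

theorem totalDegree_map_le' {σ R S : Type*} [CommSemiring R] [CommSemiring S] (φ : R →+* S)
    (p : MvPolynomial σ R) : (map φ p).totalDegree ≤ p.totalDegree := by
  classical
  exact Finset.sup_mono (support_map_subset φ p)

theorem transfer_9 (hLA : StLA.{u}) (hRoot : StRoot.{u}) (hFin : StFin.{u}) (hQ : StQInd.{u})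
    (hGen : StGen.{u}) (hInd : StInd.{u}) (hMon : StMon.{u}) (hSep : StSep.{u}) :
    StTransfer.{u} := by
  intro F _ Ω _ _ K _ _ _ V hV m r d f g A q s a hd hf hg hq hy
  classical
  set y : Fin r → K := fun i => aeval s (map f (q (a i))) with hydef
  have hyi : AlgebraicIndependent Ω y := (hInd Ω K V hV r y hy).1
  have hs : AlgebraicIndependent Ω s :=
    hGen Ω K r (fun i => map f (q (a i))) y s hyi (fun i => rfl)
  have hmapf : ∀ b, map f (q b) ≠ 0 := fun b h =>
    (hq b).1 (map_injective f hf (by rw [h, map_zero]))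
  have hmapg : ∀ b, map g (q b) ≠ 0 := by
    intro b h
    obtain ⟨c, hc⟩ := support_nonempty.2 (hq b).1
    have h1 := congrArg (fun p => coeff c p) h
    simp only [coeff_map, coeff_zero] at h1
    exact hg _ (mem_support_iff.1 hc)
      (((hq b).2.2 c).trans ((d_le_dH r d).trans (dH_le_dAll r d))) h1
  have hne : ∀ b, aeval s (map f (q b)) ≠ 0 := fun b h =>
    hmapf b ((injective_iff_map_eq_zero _).1 hs _ h)
  have hdeg : ∀ (φ : MvPolynomial (Fin m) F →+* Ω) (b : A), (map φ (q b)).totalDegree ≤ d :=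
    fun φ b => (totalDegree_map_le' φ _).trans (hq b).2.1
  -- the factors stay independent through `g`
  have hQ' : AlgebraicIndependent Ω (fun i => map g (q (a i))) := by
    by_contra hcon
    obtain ⟨Φ, hΦ0, hΦd, hΦ⟩ := hQ Ω r d _ hd (fun i => hdeg g (a i)) hcon
    obtain ⟨β₀, hβ₀⟩ := support_nonempty.2 hΦ0
    have h1 := rel_transfer hLA hf hg (E := cnt r d) (δ := d) (fun i => q (a i))
      (fun i => (hq (a i)).2.2) Φ hΦd hΦ β₀ hβ₀ (qind_bound r d)
    have h2 : (aeval (fun i => map f (q (a i))) (monomial β₀ (1 : Ω))) ∈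
        Submodule.span Ω ((aeval (fun i => map f (q (a i)))).toLinearMap ''
          ((fun β : Fin r →₀ ℕ => (monomial β (1 : Ω) : MvPolynomial (Fin r) Ω)) ''
            {β | β ∈ Φ.support ∧ β ≠ β₀})) := by
      rw [Set.image_image]
      have h3 : ∀ β : Fin r →₀ ℕ, (aeval (fun i => map f (q (a i))) (monomial β (1 : Ω)) :
          MvPolynomial (Fin r) Ω) = ∏ i, map f (q (a i)) ^ β i := by
        intro β
        rw [aeval_monomial, map_one, one_mul, Finsupp.prod_fintype _ _ (by simp)]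
      simp only [AlgHom.toLinearMap_apply, h3]
      exact h1
    rw [← Submodule.map_span, Submodule.mem_map] at h2
    obtain ⟨Ψ, hΨ, hΨ2⟩ := h2
    have h4 : (aeval y : MvPolynomial (Fin r) Ω →ₐ[Ω] K) =
        (aeval s).comp (aeval (fun i => map f (q (a i)))) := by
      ext i
      simp [hydef]
    have h5 : Ψ = monomial β₀ 1 := by
      apply hyi
      rw [h4, AlgHom.comp_apply, AlgHom.comp_apply]
      exact congrArg (aeval s) hΨ2
    have h6 : ∀ p ∈ Submodule.span Ω ((fun β : Fin r →₀ ℕ =>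
        (monomial β (1 : Ω) : MvPolynomial (Fin r) Ω)) '' {β | β ∈ Φ.support ∧ β ≠ β₀}),
        coeff β₀ p = 0 := by
      intro p hp
      induction hp using Submodule.span_induction with
      | mem p hp =>
        obtain ⟨β, hβ, rfl⟩ := hp
        rw [coeff_monomial, if_neg hβ.2]
      | zero => exact coeff_zero _
      | add p q _ _ h1 h2 => rw [coeff_add, h1, h2, add_zero]
      | smul c p _ h1 => rw [coeff_smul, h1, smul_zero]
    have h7 := h6 Ψ hΨ
    rw [h5, coeff_monomial, if_pos rfl] at h7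
    exact one_ne_zero h7
  -- finitely many points
  set Sg : Set (Fin r → K) := {s' | ∀ i, aeval s' (map g (q (a i))) = y i} with hSg
  have hcard : ∀ S : Finset (Fin r → K), (↑S : Set (Fin r → K)) ⊆ Sg → S.card ≤ nPts r d :=
    fun S hS => hFin Ω K r d (fun i => map g (q (a i))) y hd (fun i => hdeg g (a i)) hyi S
      (fun s' hs' => hS hs')
  have hfin : Sg.Finite := by
    by_contra hinf
    obtain ⟨S, hS, hSc⟩ := Set.Infinite.exists_subset_card_eq hinf (nPts r d + 1)
    have := hcard S hS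
    omega
  by_contra hcon
  push Not at hcon
  have hgen' : ∀ s' ∈ Sg, ∀ b, aeval s' (map g (q b)) ≠ 0 := by
    intro s' hs' b h
    have h1 := hGen Ω K r (fun i => map g (q (a i))) y s' hyi hs'
    exact hmapg b ((injective_iff_map_eq_zero _).1 h1 _ h)
  obtain ⟨M, hM, hsep⟩ := hSep V.ValueGroup A hfin.toFinset
    (fun b => V.valuation (aeval s (map f (q b))))
    (fun p b => V.valuation (aeval p.1 (map g (q b))))
    (fun b => (Valuation.ne_zero_iff _).2 (hne b))
    (fun p b => (Valuation.ne_zero_iff _).2 (hgen' p.1 (hfin.mem_toFinset.1 p.2) b))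
    (fun p => hcon p.1)
  set h₀ : MvPolynomial (Fin r) (MvPolynomial (Fin m) F) := (M.map q).prod with hh₀
  have hval : ∀ (φ : MvPolynomial (Fin m) F →+* Ω) (t : Fin r → K),
      aeval t (map φ h₀) = (M.map fun b => aeval t (map φ (q b))).prod := by
    intro φ t
    rw [hh₀, map_multiset_prod, map_multiset_prod, Multiset.map_map, Multiset.map_map]
    rfl
  have hvv : ∀ (φ : MvPolynomial (Fin m) F →+* Ω) (t : Fin r → K),
      V.valuation (aeval t (map φ h₀)) =
        (M.map fun b => V.valuation (aeval t (map φ (q b)))).prod := by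
    intro φ t
    rw [hval, map_multiset_prod, Multiset.map_map]
    rfl
  have hθ : aeval s (map f h₀) ≠ 0 := by
    rw [hval, Ne, Multiset.prod_eq_zero_iff, Multiset.mem_map]
    rintro ⟨b, _, hb⟩
    exact hne b hb
  have hMc : M.card * d ≤ dH r d := by
    unfold dH
    have h1 : M.card ≤ nPts r d ^ 2 := by
      refine hM.trans (Nat.pow_le_pow_left ?_ 2)
      rw [Fintype.card_coe]
      exact hcard _ (by intro x hx; exact hfin.mem_toFinset.1 hx)
    exact (Nat.mul_le_mul_right d h1).trans (Nat.le_add_right _ _)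
  have hdh : ∀ φ : MvPolynomial (Fin m) F →+* Ω, (map φ h₀).totalDegree ≤ dH r d := by
    intro φ
    refine le_trans ?_ hMc
    rw [hh₀, map_multiset_prod, Multiset.map_map]
    refine (totalDegree_multiset_prod _).trans ?_
    rw [Multiset.map_map]
    refine (Multiset.sum_le_card_nsmul _ d ?_).trans ?_
    · intro x hx
      obtain ⟨b, _, rfl⟩ := Multiset.mem_map.1 hx
      exact hdeg φ b
    · rw [Multiset.card_map, smul_eq_mul]
  have h1d : 1 ≤ dH r d := hd.trans (d_le_dH r d)
  obtain ⟨R, hR0, hRd, hR, hroot⟩ := hRoot Ω K r (dH r d) (fun i => map g (q (a i)))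
    (map g h₀) y h1d (fun i => (hdeg g (a i)).trans (d_le_dH r d)) (hdh g) hQ' hyi
  obtain ⟨β₀, hβ₀, hdom⟩ := hMon Ω K V hV r y (aeval s (map f h₀)) R hy hθ hR0 (by
    intro ρ hρ
    obtain ⟨s', hs', rfl⟩ := hroot ρ hρ
    rw [hvv, hvv]
    exact hsep ⟨s', hfin.mem_toFinset.2 hs'⟩)
  have hcons : ∀ φ : MvPolynomial (Fin m) F →+* Ω,
      (fun i => map φ ((Fin.cons h₀ (fun i => q (a i)) :
        Fin (r + 1) → MvPolynomial (Fin r) (MvPolynomial (Fin m) F)) i)) =
      (Fin.cons (map φ h₀) (fun i => map φ (q (a i))) :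
        Fin (r + 1) → MvPolynomial (Fin r) Ω) := by
    intro φ
    funext i
    refine Fin.cases ?_ (fun i => ?_) i <;> simp
  have hrel := rel_transfer hLA hf hg (E := dRel r d) (δ := dH r d)
    (Fin.cons h₀ (fun i => q (a i)) :
      Fin (r + 1) → MvPolynomial (Fin r) (MvPolynomial (Fin m) F)) (by
      intro i
      refine Fin.cases ?_ (fun i => ?_) i
      · rw [Fin.cons_zero]
        refine CB.mono hMc ?_
        have h1 := CB.multiset_prod (δ := d) (M.map q) (by
          intro p hp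
          obtain ⟨b, _, rfl⟩ := Multiset.mem_map.1 hp
          exact (hq b).2.2)
        rwa [Multiset.card_map] at h1
      · rw [Fin.cons_succ]
        exact CB.mono (d_le_dH r d) (hq (a i)).2.2) R hRd (by rw [hcons]; exact hR) β₀ hβ₀ le_rfl
  have hmem := Submodule.mem_map_of_mem
    (f := (aeval s : MvPolynomial (Fin r) Ω →ₐ[Ω] K).toLinearMap) hrel
  rw [Submodule.map_span, Set.image_image] at hmem
  have hprod : ∀ β : Fin (r + 1) →₀ ℕ,
      (aeval s : MvPolynomial (Fin r) Ω →ₐ[Ω] K).toLinearMap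
        (∏ i, map f ((Fin.cons h₀ (fun i => q (a i)) :
          Fin (r + 1) → MvPolynomial (Fin r) (MvPolynomial (Fin m) F)) i) ^ β i) =
      ∏ i, (Fin.cons (aeval s (map f h₀)) y : Fin (r + 1) → K) i ^ β i := by
    intro β
    rw [AlgHom.toLinearMap_apply, map_prod]
    refine Finset.prod_congr rfl fun i _ => ?_
    rw [map_pow]
    congr 1
    refine Fin.cases ?_ (fun i => ?_) i
    · rw [Fin.cons_zero, Fin.cons_zero]
    · rw [Fin.cons_succ, Fin.cons_succ]
  simp only [hprod] at hmem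
  refine not_mem_span_of_lt V hV _ _ ?_ ?_ hmem
  · rw [Finset.prod_ne_zero_iff]
    intro i _
    refine pow_ne_zero _ ?_
    refine Fin.cases ?_ (fun i => ?_) i
    · rw [Fin.cons_zero]; exact hθ
    · rw [Fin.cons_succ]; exact hy.1 i
  · rintro _ ⟨β, ⟨hβ1, hβ2⟩, rfl⟩
    exact hdom β hβ1 hβ2

end Pool.Agent.Lib.MP_64d474_lc.KA
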